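import Pool.Agent.N534.PG.Weyl

set_option autoImplicit false

/-! # Record prime gaps around a number and the values of several real polynomials -/

namespace Pool.Agent.N534.PG

open Finset Filter
open Pool.Agent.H469R2.NK (e norm_e e_add Cq Cq_pos)
open Pool.Agent.W147.PS (ff ff_compare ev_pow)
open Pool.Agent.TH915.PW (poly_grow)
open Pool.Agent.Y961.JR (crit_scaled1J class_param)

/-- rational integer combinations of real numbers have a bounded denominator -/
lemma den_lin {r : ℕ} (v : Fin r → ℝ) : ∃ b : ℕ, 0 < b ∧ ∀ h : Fin r → ℤ,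
    (∃ x : ℚ, ∑ j, (h j : ℝ) * v j = x) → ∃ z : ℤ, (b : ℝ) * ∑ j, (h j : ℝ) * v j = z := by
  classical
  obtain ⟨π, hπ⟩ := LinearMap.exists_leftInverse_of_injective (Algebra.linearMap ℚ ℝ)
    (LinearMap.ker_eq_bot.mpr (algebraMap ℚ ℝ).injective)
  have hπ1 : ∀ x : ℚ, π (x : ℝ) = x := by
    intro x
    have := LinearMap.congr_fun hπ x
    simpa using this
  refine ⟨∏ j, (π (v j)).den, Finset.prod_pos fun j _ => (π (v j)).den_pos, ?_⟩
  rintro h ⟨x, hx⟩
  have h1 : x = ∑ j, (h j : ℚ) * π (v j) := by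
    rw [← hπ1 x, ← hx, map_sum]
    apply Finset.sum_congr rfl
    intro j _
    have : (h j : ℝ) * v j = (h j : ℚ) • v j := by
      rw [Algebra.smul_def]
      simp
    rw [this, map_smul, smul_eq_mul]
  have h2 : ∀ j, ∃ z : ℤ, ((∏ j, (π (v j)).den : ℕ) : ℚ) * π (v j) = z := by
    intro j
    obtain ⟨c, hc⟩ := Finset.dvd_prod_of_mem (fun j => (π (v j)).den) (Finset.mem_univ j)
    refine ⟨c * (π (v j)).num, ?_⟩
    rw [hc]
    have h3 := Rat.den_mul_eq_num (π (v j))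
    push_cast
    calc ((π (v j)).den : ℚ) * c * π (v j) = c * (((π (v j)).den : ℚ) * π (v j)) := by ring
      _ = _ := by rw [h3]
  choose z hz using h2
  refine ⟨∑ j, h j * z j, ?_⟩
  rw [hx]
  have h4 : ((∏ j, (π (v j)).den : ℕ) : ℚ) * x = ((∑ j, h j * z j : ℤ) : ℚ) := by
    rw [h1, Finset.mul_sum]
    push_cast
    apply Finset.sum_congr rfl
    intro j _
    have := hz j
    push_cast at this
    rw [← this]
    ring
  exact_mod_cast h4

/-- the integer combinations of the polynomials -/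
noncomputable def comb {r : ℕ} (f : Fin r → Polynomial ℝ) (h : Fin r → ℤ) : Polynomial ℝ :=
  ∑ j, Polynomial.C (h j : ℝ) * f j

lemma comb_coeff {r : ℕ} (f : Fin r → Polynomial ℝ) (h : Fin r → ℤ) (i : ℕ) :
    (comb f h).coeff i = ∑ j, (h j : ℝ) * (f j).coeff i := by
  unfold comb
  rw [Polynomial.finsetSum_coeff]
  apply Finset.sum_congr rfl
  intro j _
  rw [Polynomial.coeff_C_mul]

lemma comb_eval {r : ℕ} (f : Fin r → Polynomial ℝ) (h : Fin r → ℤ) (x : ℝ) :
    (comb f h).eval x = ∑ j, (h j : ℝ) * (f j).eval x := by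
  unfold comb
  rw [Polynomial.eval_finsetSum]
  apply Finset.sum_congr rfl
  intro j _
  rw [Polynomial.eval_mul, Polynomial.eval_C]

/-- a common denominator for the rational coefficients of all combinations -/
lemma den_comb {r : ℕ} (f : Fin r → Polynomial ℝ) (D : ℕ) (hD : ∀ j, (f j).natDegree ≤ D) :
    ∃ b : ℕ, 0 < b ∧ ∀ (h : Fin r → ℤ) (i : ℕ), (∃ x : ℚ, (comb f h).coeff i = x) →
      ∃ z : ℤ, (b : ℝ) * (comb f h).coeff i = z := by
  classical
  choose b hb hz using fun i => den_lin (fun j => (f j).coeff i)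
  refine ⟨∏ i ∈ range (D + 1), b i, Finset.prod_pos fun i _ => hb i, ?_⟩
  intro h i hx
  by_cases hi : i < D + 1
  · rw [comb_coeff] at hx ⊢
    obtain ⟨z, hz⟩ := hz i h hx
    obtain ⟨c, hc⟩ := Finset.dvd_prod_of_mem b (mem_range.mpr hi)
    refine ⟨c * z, ?_⟩
    rw [hc]
    push_cast
    rw [← hz]
    ring
  · refine ⟨0, ?_⟩
    rw [comb_coeff]
    have : ∀ j, (f j).coeff i = 0 := fun j =>
      Polynomial.coeff_eq_zero_of_natDegree_lt (by have := hD j; omega)
    simp [this]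

lemma comb_smul {r : ℕ} (f : Fin r → Polynomial ℝ) (h : Fin r → ℤ) (P : ℕ) (i : ℕ) :
    (comb f ((P : ℤ) • h)).coeff i = P * (comb f h).coeff i := by
  rw [comb_coeff, comb_coeff, Finset.mul_sum]
  apply Finset.sum_congr rfl
  intro j _
  simp only [Pi.smul_apply, smul_eq_mul]
  push_cast
  ring

/-- The top irrational coefficients of the integer combinations are not too close to integers. -/
def Dio {r : ℕ} (f : Fin r → Polynomial ℝ) (c τ : ℝ) : Prop :=
  ∀ (H : ℝ) (h : Fin r → ℤ), (∀ j, |(h j : ℝ)| ≤ H) → ∀ i : ℕ, 1 ≤ i →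
    Irrational (∑ j, (h j : ℝ) * (f j).coeff i) →
    (∀ l, i < l → ¬ Irrational (∑ j, (h j : ℝ) * (f j).coeff l)) →
    ∀ m : ℤ, c * H ^ (-τ) ≤ |∑ j, (h j : ℝ) * (f j).coeff i - m|

lemma natDegree_pos_of_ind {r : ℕ} (f : Fin r → Polynomial ℝ)
    (hind : ∀ h : Fin r → ℤ, h ≠ 0 → ∃ i, 1 ≤ i ∧ Irrational (∑ j, (h j : ℝ) * (f j).coeff i))
    (j : Fin r) : 1 ≤ (f j).natDegree := by
  classical
  obtain ⟨i, hi, hirr⟩ := hind (Pi.single j 1) (by simp)
  by_contra hcon
  have h0 : (f j).coeff i = 0 := Polynomial.coeff_eq_zero_of_natDegree_lt (by omega)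
  have h1 : ∑ j', ((Pi.single j (1 : ℤ) : Fin r → ℤ) j' : ℝ) * (f j').coeff i = 0 := by
    apply Finset.sum_eq_zero
    intro j' _
    by_cases hj : j' = j
    · rw [hj, h0, mul_zero]
    · simp [hj]
  rw [h1] at hirr
  exact hirr ⟨0, by simp⟩

set_option maxHeartbeats 4000000 in
/-- **Several real polynomials.** -/
theorem polys_main (r : ℕ) (hr : 1 ≤ r) (f : Fin r → Polynomial ℝ)
    (hlc : ∀ j, 0 < (f j).leadingCoeff)
    (hind : ∀ h : Fin r → ℤ, h ≠ 0 → ∃ i, 1 ≤ i ∧ Irrational (∑ j, (h j : ℝ) * (f j).coeff i))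
    (c τ : ℝ) (hc : 0 < c) (hdio : Dio f c τ) :
    ∃ κ : ℝ, 0 < κ ∧ ∃ Z₀ : ℝ, ∀ Z : ℝ, Z₀ ≤ Z → ∀ M : ℝ, Z ≤ M →
      ∃ n : ℕ, M < n ∧ (n : ℝ) ≤ M + Z ∧ (∀ q : ℕ, q.Prime → κ * ff Z < |(q : ℝ) - n|) ∧
        ∀ j, ∀ q : ℕ, q.Prime → κ * ff Z < |(q : ℝ) - (f j).eval (n : ℝ)| := by
  classical
  -- enlarging `τ`
  obtain ⟨τ', hτ', hdio'⟩ : ∃ τ' : ℝ, 0 ≤ τ' ∧ Dio f c τ' := by
    refine ⟨max τ 0, le_max_right _ _, ?_⟩
    intro H h hH i hi hirr hl m
    refine le_trans ?_ (hdio H h hH i hi hirr hl m)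
    have hj : ∃ j, h j ≠ 0 := by
      by_contra hcon
      push Not at hcon
      apply hirr
      refine ⟨0, ?_⟩
      simp [hcon]
    obtain ⟨j, hj⟩ := hj
    have hH1 : 1 ≤ H := by
      refine le_trans ?_ (hH j)
      have := Int.one_le_abs hj
      exact_mod_cast this
    apply mul_le_mul_of_nonneg_left _ hc.le
    apply Real.rpow_le_rpow_of_exponent_le hH1
    have := le_max_left τ 0
    linarith
  obtain ⟨D, hD⟩ : ∃ D : ℕ, ∀ j, (f j).natDegree ≤ D :=
    ⟨Finset.univ.sup fun j => (f j).natDegree, fun j =>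
      Finset.le_sup (f := fun j => (f j).natDegree) (Finset.mem_univ j)⟩
  obtain ⟨b, hb, hden⟩ := den_comb f D hD
  have hD0 : (0 : ℝ) ≤ D := Nat.cast_nonneg D
  set σ : ℝ := 1 / (8 * ((D : ℝ) + 1) * (τ' + 1)) with hσ
  have hσ0 : 0 < σ := by positivity
  have hσD : σ * ((D : ℝ) + 1) * (τ' + 1) = 1 / 8 := by rw [hσ]; field_simp
  set η : ℝ := σ / 2 ^ (D + 1) with hη
  have hη0 : 0 < η := by positivity
  have hησ : η ≤ σ := div_le_self hσ0.le (one_le_pow₀ (by norm_num))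
  have hσ18 : σ * ((D : ℝ) + 1) ≤ 1 / 8 := by
    have h1 : 0 ≤ σ * ((D : ℝ) + 1) := by positivity
    nlinarith
  have hσle : σ ≤ 1 / 8 := by nlinarith
  obtain ⟨κ, hκ, hcr⟩ := crit_scaled1J r hr η hη0 (by linarith)
  refine ⟨κ, hκ, ?_⟩
  have hw : ∀ k : Fin (D + 1), ∀ᶠ Z : ℝ in atTop, ∀ F : Polynomial ℝ,
      (∀ i, (k : ℕ) + 1 < i → ∃ z : ℤ, (b : ℝ) * F.coeff i = z) →
      (∀ P : ℕ, 1 ≤ P → ∀ m : ℤ, c * ((P : ℝ) * Z ^ η) ^ (-τ') ≤
        |(P : ℝ) * F.coeff ((k : ℕ) + 1) - m|) →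
      ∀ q : ℕ, 1 ≤ q → (q : ℝ) ≤ Z ^ η → ∀ n₀ L N : ℕ, L ≤ N → Z / 2 ≤ N →
      ‖∑ m ∈ range L, e (F.eval ((n₀ : ℝ) + q * (m : ℝ)) / q)‖ ≤ N * Z ^ (-η) := by
    intro k
    have hkD : ((k : ℕ) : ℝ) + 1 ≤ (D : ℝ) + 1 := by
      have : (k : ℕ) ≤ D := by have := k.2; omega
      have h2 : ((k : ℕ) : ℝ) ≤ D := by exact_mod_cast this
      linarith
    have h1 : σ * (((k : ℕ) : ℝ) + 1) ≤ σ * ((D : ℝ) + 1) := mul_le_mul_of_nonneg_left hkD hσ0.le
    refine weyl_scale k b hb τ' c σ η hτ' hc hσ0 hη0 hησ ?_ (h1.trans hσ18) ?_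
    · rw [hη]
      apply div_lt_div_of_pos_left hσ0 (by positivity)
      apply pow_lt_pow_right₀ (by norm_num)
      exact k.2
    · have h2 : σ * (((k : ℕ) : ℝ) + 1) * τ' ≤ σ * ((D : ℝ) + 1) * τ' :=
        mul_le_mul_of_nonneg_right h1 hτ'
      have h3 : 0 ≤ σ * ((D : ℝ) + 1) := by positivity
      nlinarith
  obtain ⟨t₁, ht₁⟩ := eventually_atTop.mp (eventually_all.mpr fun j : Fin r =>
    poly_grow (f j) (hlc j) (natDegree_pos_of_ind f hind j))
  apply eventually_atTop.mp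
  filter_upwards [hcr, eventually_all.mpr hw, eventually_ge_atTop (4 : ℝ), eventually_ge_atTop t₁,
    ev_pow η 1 2 (by linarith)] with Z hcr' hw' hZ4 hZt hp1
  rw [Real.rpow_one] at hp1
  intro M hM
  have hZ0 : 0 < Z := by linarith
  have hZ1 : 1 ≤ Z := by linarith
  have hM0 : 0 < M := by linarith
  set A : ℕ := ⌊M⌋₊ with hA
  set B : ℕ := ⌊M + Z⌋₊ with hB
  have hAM : (A : ℝ) ≤ M := Nat.floor_le hM0.le
  have hAM2 : M < A + 1 := Nat.lt_floor_add_one M
  have hBM : (B : ℝ) ≤ M + Z := Nat.floor_le (by linarith)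
  have hBM2 : M + Z < B + 1 := Nat.lt_floor_add_one (M + Z)
  have hAB' : (A : ℝ) < B := by linarith
  have hAB : A < B := by exact_mod_cast hAB'
  have hmem : ∀ n ∈ Ioc A B, M < (n : ℝ) ∧ (n : ℝ) ≤ M + Z := by
    intro n hn
    rw [Finset.mem_Ioc] at hn
    have h1 : ((A + 1 : ℕ) : ℝ) ≤ n := by exact_mod_cast hn.1
    have h2 : (n : ℝ) ≤ B := by exact_mod_cast hn.2
    push_cast at h1
    constructor <;> linarith
  have hcard : ((Ioc A B).card : ℝ) = (B : ℝ) - A := by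
    rw [Nat.card_Ioc, Nat.cast_sub hAB.le]
  have hZhalf : Z / 2 ≤ (Ioc A B).card := by
    rw [hcard]; linarith
  have hmain : 1 ≤ ((Ioc A B).card : ℝ) * Z ^ (-η) := by
    rw [Real.rpow_neg hZ0.le]
    have h1 : 0 < Z ^ η := Real.rpow_pos_of_pos hZ0 _
    rw [← div_eq_mul_inv, le_div_iff₀ h1]
    linarith
  have hZη : Z ^ η ≤ Z := by
    calc Z ^ η ≤ Z ^ (1 : ℝ) := Real.rpow_le_rpow_of_exponent_le hZ1 (by linarith)
      _ = Z := Real.rpow_one Z
  obtain ⟨n, hn, hn1, hn2⟩ := hcr' ℕ (Ioc A B) (fun n => (n : ℤ))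
    (fun n j => (f j).eval (n : ℝ)) ⟨B, Finset.mem_Ioc.mpr ⟨hAB, le_rfl⟩⟩
    (fun n hn => by
      have := (hmem n hn).1
      push_cast
      linarith)
    (fun n hn j => by
      have h1 := (hmem n hn).1
      refine le_trans ?_ (ht₁ n (by linarith) j)
      calc Z ^ η ≤ Z ^ (1 / 2 : ℝ) := Real.rpow_le_rpow_of_exponent_le hZ1 (by linarith)
        _ ≤ _ := Real.rpow_le_rpow hZ0.le (by linarith) (by norm_num))
    (by
      intro q hq hqZ b'
      obtain ⟨n₀, L, g1, g2, g3, g4, g5, g6⟩ := class_param A B q hq hAB.le b'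
      constructor
      · rw [g5, hcard]
        exact g3.trans (by rw [← hcard]; exact hmain)
      · intro h hh hhZ
        rw [g6]
        have e1 : ∀ m : ℕ, (∑ j, (h j : ℝ) * ((f j).eval ((n₀ + q * m : ℕ) : ℝ) / q)) =
            (comb f h).eval ((n₀ : ℝ) + q * (m : ℝ)) / q := by
          intro m
          rw [comb_eval, Finset.sum_div]
          apply Finset.sum_congr rfl
          intro j _
          push_cast
          ring
        simp_rw [e1]
        -- the top irrational coefficient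
        obtain ⟨i₀, hi₀, hirr₀⟩ := hind h hh
        rw [← comb_coeff] at hirr₀
        obtain ⟨k, hk, hrat, -⟩ := Pool.Agent.TH915.PW.top_irrational (comb f h) ⟨i₀, hi₀, hirr₀⟩
        have hkD : k < D + 1 := by
          by_contra hcon
          have h0 : (comb f h).coeff (k + 1) = 0 := by
            rw [comb_coeff]
            apply Finset.sum_eq_zero
            intro j _
            rw [Polynomial.coeff_eq_zero_of_natDegree_lt (by have := hD j; omega), mul_zero]
          rw [h0] at hk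
          exact hk ⟨0, by simp⟩
        apply hw' ⟨k, hkD⟩ (comb f h) (fun i hi => hden h i (hrat i hi)) ?_ q hq hqZ n₀ L
          (Ioc A B).card ?_ hZhalf
        · intro P hP m
          have h1 := hdio' ((P : ℝ) * Z ^ η) ((P : ℤ) • h) (by
            intro j
            simp only [Pi.smul_apply, smul_eq_mul]
            push_cast
            rw [abs_mul, Nat.abs_cast]
            exact mul_le_mul_of_nonneg_left (hhZ j) (Nat.cast_nonneg P)) (k + 1) (by omega) (by
            rw [← comb_coeff, comb_smul]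
            exact hk.natCast_mul (by omega)) (by
            intro l hl
            rw [← comb_coeff, comb_smul]
            obtain ⟨x, hx⟩ := hrat l hl
            intro hcon
            apply hcon
            refine ⟨P * x, ?_⟩
            rw [hx]
            push_cast
            ring) m
          rw [← comb_coeff, comb_smul] at h1
          exact h1
        · rw [← g5]
          exact Finset.card_filter_le _ _)
  refine ⟨n, (hmem n hn).1, (hmem n hn).2, fun q hq => ?_, fun j q hq => hn2 j q hq⟩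
  have := hn1 q hq
  push_cast at this
  exact this

end Pool.Agent.N534.PG
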