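import Pool.Agent.Y961.JR.ScaledJ
import Pool.Agent.Y961.JR.Class
import Pool.Agent.TH915.PW.PolyMain

set_option autoImplicit false

/-! # Exponential sums of real polynomials over progressions, with a Diophantine coefficient -/

namespace Pool.Agent.N534.PG

open Finset Filter
open Pool.Agent.H469R2.NK (e norm_e e_add Cq Cq_pos)
open Pool.Agent.W147.PS (ff ff_compare ev_pow)
open Pool.Agent.TH915.PW (Hy poly_phase exp_boundC root_le norm_split e_int poly_grow)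

/-- splitting off the part of high degree, whose coefficients have denominator `b` -/
lemma split_den (f : Polynomial ℝ) (j b : ℕ) (hb : 0 < b)
    (hrat : ∀ i, j < i → ∃ z : ℤ, (b : ℝ) * f.coeff i = z) :
    ∃ (g : Polynomial ℝ) (F : Polynomial ℤ), g.natDegree ≤ j ∧ g.coeff j = f.coeff j ∧
      ∀ n : ℤ, f.eval (n : ℝ) = g.eval (n : ℝ) + (F.eval n : ℤ) / b := by
  classical
  have hr : ∀ i : ℕ, ∃ z : ℤ, j < i → (b : ℝ) * f.coeff i = z := by
    intro i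
    by_cases h : j < i
    · obtain ⟨r, hr⟩ := hrat i h
      exact ⟨r, fun _ => hr⟩
    · exact ⟨0, fun h' => absurd h' h⟩
  choose κ hκ using hr
  have hb0 : (b : ℝ) ≠ 0 := by exact_mod_cast hb.ne'
  refine ⟨∑ i ∈ range (j + 1), Polynomial.monomial i (f.coeff i),
    ∑ i ∈ (range (f.natDegree + 1)).filter (fun i => j < i), Polynomial.monomial i (κ i),
    ?_, ?_, ?_⟩
  · apply Polynomial.natDegree_sum_le_of_forall_le
    intro i hi
    exact (Polynomial.natDegree_monomial_le _).trans (Nat.lt_succ_iff.mp (mem_range.mp hi))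
  · rw [Polynomial.finsetSum_coeff]
    simp only [Polynomial.coeff_monomial]
    rw [Finset.sum_ite_eq' (range (j + 1)) j (fun i => f.coeff i), if_pos (by simp)]
  · intro n
    rw [Polynomial.eval_eq_sum_range, Polynomial.eval_finsetSum, Polynomial.eval_finsetSum]
    simp only [Polynomial.eval_monomial]
    push_cast
    rw [Finset.sum_div]
    have h1 : ∑ i ∈ (range (f.natDegree + 1)).filter (fun i => j < i), (κ i : ℝ) * (n : ℝ) ^ i / b =
        ∑ i ∈ (range (f.natDegree + 1)).filter (fun i => j < i), f.coeff i * (n : ℝ) ^ i := by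
      apply Finset.sum_congr rfl
      intro i hi
      rw [Finset.mem_filter] at hi
      rw [← hκ i hi.2]
      field_simp
    rw [h1]
    have h2 : ∑ i ∈ range (j + 1), f.coeff i * (n : ℝ) ^ i =
        ∑ i ∈ (range (f.natDegree + 1)).filter (fun i => ¬ j < i), f.coeff i * (n : ℝ) ^ i := by
      symm
      apply Finset.sum_subset
      · intro i hi
        rw [Finset.mem_filter] at hi
        rw [mem_range]
        omega
      · intro i hi hi'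
        rw [Finset.mem_filter, mem_range] at hi'
        rw [mem_range] at hi
        have : f.natDegree < i := by omega
        rw [Polynomial.coeff_eq_zero_of_natDegree_lt this, zero_mul]
    rw [h2, ← Finset.sum_filter_add_sum_filter_not (range (f.natDegree + 1)) (fun i => j < i)
      (fun i => f.coeff i * (n : ℝ) ^ i)]
    ring

/-- the sum over a progression of difference `b q` -/
lemma weyl_one (F : Polynomial ℝ) (k b : ℕ) (hb : 0 < b)
    (hrat : ∀ i, k + 1 < i → ∃ z : ℤ, (b : ℝ) * F.coeff i = z) (q : ℕ) (hq : 1 ≤ q) (w : ℤ)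
    (Lr N H : ℕ) (hN : 1 ≤ N) (hL : Lr ≤ N) (hH : 1 ≤ H) (hHN : H ≤ N) (δ : ℝ) (hδ : 0 < δ)
    (hfr : ∀ P : ℕ, 1 ≤ P → P ≤ H ^ k →
      δ ≤ Int.fract ((P : ℝ) * (((b ^ (k + 1) * q ^ k * (k + 1).factorial : ℕ) : ℝ) *
        F.coeff (k + 1))) ∧
      Int.fract ((P : ℝ) * (((b ^ (k + 1) * q ^ k * (k + 1).factorial : ℕ) : ℝ) *
        F.coeff (k + 1))) ≤ 1 - δ) :
    (‖∑ m ∈ range Lr, e (F.eval ((w : ℝ) + ((b * q : ℕ) : ℝ) * (m : ℝ)) / q)‖ / N) ^ (2 ^ k) ≤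
      Cq k * (1 / H + 2 * (H : ℝ) ^ k / (δ * N)) := by
  obtain ⟨g, G, hgd, hgj, hfg⟩ := split_den F (k + 1) b hb hrat
  have hb0 : (0 : ℝ) < b := by exact_mod_cast hb
  have hq0 : (0 : ℝ) < q := by exact_mod_cast hq
  obtain ⟨B, hB⟩ : ∃ B : ℕ, B = b * q := ⟨_, rfl⟩
  rw [← hB]
  have hBr : (B : ℝ) = b * q := by rw [hB]; push_cast; rfl
  have hterm : ∀ m ∈ range Lr, e (F.eval ((w : ℝ) + (B : ℝ) * (m : ℝ)) / q) =
      e ((1 : ℝ) / q * g.eval ((w : ℝ) + B * (m : ℝ))) * e ((1 : ℝ) / (q * b) * (G.eval w : ℤ)) := by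
    intro m _
    have h1 := hfg (w + B * m)
    have h3 : (((w + B * m : ℤ)) : ℝ) = (w : ℝ) + B * (m : ℝ) := by push_cast; ring
    rw [h3] at h1
    rw [h1]
    obtain ⟨K, hK⟩ := Polynomial.sub_dvd_eval_sub (w + B * m) w G
    have h4 : (G.eval (w + (B : ℤ) * m) : ℤ) = G.eval w + (B : ℤ) * m * K := by
      have : w + (B : ℤ) * m - w = (B : ℤ) * m := by ring
      rw [this] at hK
      linarith
    rw [h4]
    have h5 : (g.eval ((w : ℝ) + B * (m : ℝ)) +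
        (((G.eval w + (B : ℤ) * m * K : ℤ)) : ℝ) / b) / q =
        (1 : ℝ) / q * g.eval ((w : ℝ) + B * (m : ℝ)) + (1 : ℝ) / (q * b) * (G.eval w : ℤ) +
          ((m * K : ℤ) : ℝ) := by
      push_cast
      rw [hBr]
      field_simp
      ring
    rw [h5, e_add, e_add, e_int, mul_one]
  rw [sum_congr rfl hterm, ← sum_mul, norm_mul, norm_e, mul_one]
  obtain ⟨φ, hφ⟩ : ∃ φ : ℕ → ℝ → ℝ, φ = fun i t => (1 : ℝ) / q * (B : ℝ) ^ i *
    (Polynomial.derivative^[i] g).eval ((w : ℝ) + B * t) := ⟨_, rfl⟩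
  have hHy := poly_phase g k hgd ((1 : ℝ) / q) (w : ℝ) (B : ℝ) 0 Lr
  rw [← hφ] at hHy
  obtain ⟨c, hc⟩ : ∃ c : ℝ, c = (1 : ℝ) / q * (B : ℝ) ^ (k + 1) *
    ((k + 1).factorial * g.coeff (k + 1)) := ⟨_, rfl⟩
  rw [← hc] at hHy
  have hcT : c = ((b ^ (k + 1) * q ^ k * (k + 1).factorial : ℕ) : ℝ) * F.coeff (k + 1) := by
    rw [hc, hgj, hBr]
    push_cast
    rw [mul_pow, pow_succ (q : ℝ) k]
    field_simp
  have hexp := exp_boundC hHy 0 N Lr H hN hL le_rfl (by simp) hH hHN δ hδ (by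
    intro P hP1 hP2
    rw [hcT]
    exact hfr P hP1 hP2)
  have hsum : ∑ m ∈ range Lr, e (φ 0 (0 + (m : ℝ))) =
      ∑ m ∈ range Lr, e ((1 : ℝ) / q * g.eval ((w : ℝ) + B * (m : ℝ))) := by
    refine sum_congr rfl fun m _ => ?_
    rw [hφ]
    simp
  rw [hsum] at hexp
  exact hexp

lemma fract_of_dist (x δ : ℝ) (h : ∀ m : ℤ, δ ≤ |x - m|) : δ ≤ Int.fract x ∧ Int.fract x ≤ 1 - δ := by
  constructor
  · have := h ⌊x⌋
    rwa [Int.self_sub_floor, abs_of_nonneg (Int.fract_nonneg x)] at this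
  · have := h (⌊x⌋ + 1)
    have h4 : x - ((⌊x⌋ + 1 : ℤ) : ℝ) = Int.fract x - 1 := by
      push_cast
      rw [← Int.self_sub_floor]
      ring
    rw [h4, abs_of_nonpos (by linarith [Int.fract_lt_one x])] at this
    linarith

set_option maxHeartbeats 4000000 in
/-- the sums over residue classes in short intervals at the scale `Z` -/
theorem weyl_scale (k b : ℕ) (hb : 0 < b) (τ c σ η : ℝ) (hτ : 0 ≤ τ) (hc : 0 < c) (hσ0 : 0 < σ)
    (hη0 : 0 < η) (hησ : η ≤ σ) (hη2 : η < σ / 2 ^ k) (hσ1 : σ * (k + 1) ≤ 1 / 8)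
    (hσ2 : σ * (k + 1) * τ ≤ 1 / 8) :
    ∀ᶠ Z : ℝ in atTop, ∀ F : Polynomial ℝ, (∀ i, k + 1 < i → ∃ z : ℤ, (b : ℝ) * F.coeff i = z) →
      (∀ P : ℕ, 1 ≤ P → ∀ m : ℤ, c * ((P : ℝ) * Z ^ η) ^ (-τ) ≤ |(P : ℝ) * F.coeff (k + 1) - m|) →
      ∀ q : ℕ, 1 ≤ q → (q : ℝ) ≤ Z ^ η → ∀ n₀ L N : ℕ, L ≤ N → Z / 2 ≤ N →
      ‖∑ m ∈ range L, e (F.eval ((n₀ : ℝ) + q * (m : ℝ)) / q)‖ ≤ N * Z ^ (-η) := by
  have hb0 : (0 : ℝ) < b := by exact_mod_cast hb
  have hk0 : (0 : ℝ) ≤ k := Nat.cast_nonneg k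
  have hCq := Cq_pos k
  set δ' : ℝ := σ / 2 ^ k with hδ'
  have hδ'0 : 0 < δ' := by positivity
  set C₁ : ℝ := (Cq k * 3) ^ ((1 : ℝ) / 2 ^ k) with hC₁
  have hC₁0 : 0 < C₁ := by positivity
  set CT : ℝ := (b : ℝ) ^ (k + 1) * (k + 1).factorial with hCT
  have hCT0 : 0 < CT := by positivity
  set s : ℝ := σ * k + η * k + η with hs
  have hs0 : 0 ≤ s := by positivity
  have hs1 : s ≤ 2 * (σ * (k + 1)) := by
    rw [hs]
    nlinarith
  have hsτ : s * τ ≤ 1 / 4 := by nlinarith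
  have hCTτ : 0 < CT ^ τ := Real.rpow_pos_of_pos hCT0 _
  filter_upwards [eventually_ge_atTop (4 : ℝ), ev_pow (-(1 / 2)) (-(s * τ)) (CT ^ τ / c) (by linarith),
    ev_pow (σ * k - 1 / 2) (-σ) 4 (by nlinarith), ev_pow σ 1 2 (by nlinarith),
    (tendsto_rpow_atTop hσ0).eventually_ge_atTop 2,
    ev_pow (-δ') (-η) (b * C₁) (by linarith)]
    with Z hZ4 hp1 hp2 hp3 hp4 hp6
  rw [Real.rpow_one] at hp3
  intro F hrat hdio q hq hqZ n₀ L N hLN hN
  have hZ0 : 0 < Z := by linarith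
  have hZ1 : 1 ≤ Z := by linarith
  have hq0 : (0 : ℝ) < q := by exact_mod_cast hq
  have hN0 : (0 : ℝ) < N := by linarith
  have hN1 : 1 ≤ N := by exact_mod_cast hN0
  set H : ℕ := ⌊Z ^ σ⌋₊ with hH
  have hHZ : (H : ℝ) ≤ Z ^ σ := Nat.floor_le (by positivity)
  have hZH : Z ^ σ / 2 ≤ H := by
    have := Nat.lt_floor_add_one (Z ^ σ)
    linarith
  have hH1 : 1 ≤ H := by
    have : (0 : ℝ) < H := by linarith
    exact_mod_cast this
  have hHN : H ≤ N := by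
    have h1 : (H : ℝ) ≤ N := by linarith
    exact_mod_cast h1
  have hHk : (H : ℝ) ^ k ≤ Z ^ (σ * k) := by
    calc (H : ℝ) ^ k ≤ (Z ^ σ) ^ k := pow_le_pow_left₀ (Nat.cast_nonneg _) hHZ k
      _ = Z ^ (σ * k) := by rw [← Real.rpow_natCast, ← Real.rpow_mul hZ0.le]
  -- the Diophantine condition
  have hfr : ∀ P : ℕ, 1 ≤ P → P ≤ H ^ k →
      Z ^ (-(1 / 2) : ℝ) ≤ Int.fract ((P : ℝ) *
        (((b ^ (k + 1) * q ^ k * (k + 1).factorial : ℕ) : ℝ) * F.coeff (k + 1))) ∧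
      Int.fract ((P : ℝ) * (((b ^ (k + 1) * q ^ k * (k + 1).factorial : ℕ) : ℝ) *
        F.coeff (k + 1))) ≤ 1 - Z ^ (-(1 / 2) : ℝ) := by
    intro P hP1 hP2
    apply fract_of_dist
    intro m
    obtain ⟨Q, hQ⟩ : ∃ Q : ℕ, Q = P * (b ^ (k + 1) * q ^ k * (k + 1).factorial) := ⟨_, rfl⟩
    have hQ1 : 1 ≤ Q := by
      rw [hQ]
      have h2 : 0 < q := by omega
      have h3 : 0 < P := by omega
      exact Nat.one_le_iff_ne_zero.mpr (by positivity)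
    have h1 := hdio Q hQ1 m
    have e1 : (Q : ℝ) * F.coeff (k + 1) = (P : ℝ) *
        (((b ^ (k + 1) * q ^ k * (k + 1).factorial : ℕ) : ℝ) * F.coeff (k + 1)) := by
      rw [hQ]
      push_cast
      ring
    rw [e1] at h1
    refine le_trans ?_ h1
    have hQZ : (Q : ℝ) * Z ^ η ≤ CT * Z ^ s := by
      have h2 : (P : ℝ) ≤ Z ^ (σ * k) := by
        have : (P : ℝ) ≤ (H : ℝ) ^ k := by exact_mod_cast hP2
        exact this.trans hHk
      have h3 : (q : ℝ) ^ k ≤ Z ^ (η * k) := by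
        calc (q : ℝ) ^ k ≤ (Z ^ η) ^ k := pow_le_pow_left₀ hq0.le hqZ k
          _ = Z ^ (η * k) := by rw [← Real.rpow_natCast, ← Real.rpow_mul hZ0.le]
      calc (Q : ℝ) * Z ^ η = CT * (P * (q : ℝ) ^ k * Z ^ η) := by
            rw [hQ, hCT]; push_cast; ring
        _ ≤ CT * (Z ^ (σ * k) * Z ^ (η * k) * Z ^ η) := by gcongr
        _ = CT * Z ^ s := by rw [← Real.rpow_add hZ0, ← Real.rpow_add hZ0]
    have hQ0 : 0 < (Q : ℝ) * Z ^ η := by
      have : (0 : ℝ) < Q := by exact_mod_cast hQ1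
      positivity
    have h4 : (CT * Z ^ s) ^ (-τ) ≤ ((Q : ℝ) * Z ^ η) ^ (-τ) :=
      Real.rpow_le_rpow_of_nonpos hQ0 hQZ (by linarith)
    have h5 : (CT * Z ^ s) ^ (-τ) = (CT ^ τ)⁻¹ * Z ^ (-(s * τ)) := by
      rw [Real.mul_rpow hCT0.le (by positivity), Real.rpow_neg hCT0.le, ← Real.rpow_mul hZ0.le]
      congr 2
      ring
    calc Z ^ (-(1 / 2) : ℝ) = c * ((CT ^ τ)⁻¹ * (CT ^ τ / c * Z ^ (-(1 / 2) : ℝ))) := by
          field_simp
      _ ≤ c * ((CT ^ τ)⁻¹ * Z ^ (-(s * τ))) := by gcongr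
      _ = c * (CT * Z ^ s) ^ (-τ) := by rw [h5]
      _ ≤ _ := mul_le_mul_of_nonneg_left h4 hc.le
  have hb2 : Cq k * (1 / H + 2 * (H : ℝ) ^ k / (Z ^ (-(1 / 2) : ℝ) * N)) ≤
      (Cq k * 3) * Z ^ (-σ) := by
    have e1 : 1 / (H : ℝ) ≤ 2 * Z ^ (-σ) := by
      rw [Real.rpow_neg hZ0.le, div_le_iff₀ (by linarith : (0 : ℝ) < H)]
      have h5 : (0 : ℝ) < Z ^ σ := by positivity
      calc (1 : ℝ) = 2 * (Z ^ σ)⁻¹ * (Z ^ σ / 2) := by field_simp
        _ ≤ _ := by gcongr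
    have e2 : 2 * (H : ℝ) ^ k / (Z ^ (-(1 / 2) : ℝ) * N) ≤ Z ^ (-σ) := by
      have h5 : (0 : ℝ) < Z ^ (-(1 / 2) : ℝ) := Real.rpow_pos_of_pos hZ0 _
      calc 2 * (H : ℝ) ^ k / (Z ^ (-(1 / 2) : ℝ) * N) ≤
          2 * Z ^ (σ * k) / (Z ^ (-(1 / 2) : ℝ) * (Z / 2)) := by gcongr
        _ = 4 * (Z ^ (σ * k) * Z ^ (1 / 2 : ℝ) * Z ^ (-1 : ℝ)) := by
            rw [Real.rpow_neg hZ0.le, Real.rpow_neg hZ0.le, Real.rpow_one]
            field_simp
            norm_num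
        _ = 4 * Z ^ (σ * k - 1 / 2) := by
            rw [← Real.rpow_add hZ0, ← Real.rpow_add hZ0]
            congr 2
            ring
        _ ≤ _ := hp2
    calc _ ≤ Cq k * (2 * Z ^ (-σ) + Z ^ (-σ)) := by gcongr
      _ = _ := by ring
  have hr2 : ((Cq k * 3) * Z ^ (-σ)) ^ ((1 : ℝ) / 2 ^ k) = C₁ * Z ^ (-δ') := by
    rw [Real.mul_rpow (by positivity) (by positivity), ← Real.rpow_mul hZ0.le, hC₁, hδ']
    congr 2
    ring
  have hres : ∀ r < b, ‖∑ m ∈ range ((L + (b - 1 - r)) / b),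
      e (F.eval ((n₀ : ℝ) + q * ((r + b * m : ℕ) : ℝ)) / q)‖ ≤ N * (C₁ * Z ^ (-δ')) := by
    intro r hr
    obtain ⟨Lr, hLr⟩ : ∃ Lr : ℕ, Lr = (L + (b - 1 - r)) / b := ⟨_, rfl⟩
    rw [← hLr]
    have hLrN : Lr ≤ N := by
      rcases Nat.eq_zero_or_pos L with h0 | h0
      · rw [hLr, h0, Nat.div_eq_of_lt (by omega)]
        exact Nat.zero_le _
      · refine le_trans ?_ hLN
        rw [hLr]
        have h1 : L + (b - 1 - r) < (L + 1) * b := by
          have h2 : (L + 1) * b = L * b + b := by ring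
          have h3 : L ≤ L * b := Nat.le_mul_of_pos_right L hb
          omega
        have := (Nat.div_lt_iff_lt_mul hb).mpr h1
        omega
    have h1 := weyl_one F k b hb hrat q hq ((n₀ + q * r : ℕ) : ℤ) Lr N H hN1 hLrN hH1 hHN
      (Z ^ (-(1 / 2) : ℝ)) (Real.rpow_pos_of_pos hZ0 _) hfr
    have h2 := root_le _ _ k (by positivity) (h1.trans hb2)
    rw [hr2, div_le_iff₀ hN0] at h2
    rw [mul_comm (N : ℝ)]
    refine le_trans (le_of_eq ?_) h2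
    congr 1
    apply Finset.sum_congr rfl
    intro m _
    congr 3
    push_cast
    ring
  have hall := norm_split (fun m => e (F.eval ((n₀ : ℝ) + q * (m : ℝ)) / q)) L b hb
    (N * (C₁ * Z ^ (-δ'))) hres
  refine hall.trans ?_
  calc (b : ℝ) * (N * (C₁ * Z ^ (-δ'))) = N * (b * C₁ * Z ^ (-δ')) := by ring
    _ ≤ N * Z ^ (-η) := by gcongr

end Pool.Agent.N534.PG
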